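import Mathlib
import Pool.Agent.V11238.NPS.Rand

/-!
# MP_696e10_co, Q1 (affirmative answer)

The probability that `G(n, 1/2)` admits a consistent path system which is irreducible and
non-metrizable tends to `1`.  The definitions `PathSystem`, `PathSystem.Consistent`,
`PathSystem.Metrizable` (with `pathWeight`) and `PathSystem.Irreducible` are in
`Pool/Agent/V11238/NPS/Sys.lean`.
-/

set_option autoImplicit false

namespace Pool.Agent.Results.MP_696e10_co.RandomGraph

open Pool.Agent.V11238.NPS Filter Topology

/-- The proportion of the graphs on the vertex set `Fin n` which admit a consistent path system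
that is both irreducible and non-metrizable tends to `1`. -/
theorem result : Tendsto (fun n : ℕ =>
    (Nat.card {G : SimpleGraph (Fin n) //
      ∃ S : PathSystem G, S.Consistent ∧ S.Irreducible ∧ ¬ S.Metrizable} : ℝ) /
      Nat.card (SimpleGraph (Fin n))) atTop (𝓝 1) :=
  main

end Pool.Agent.Results.MP_696e10_co.RandomGraph
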